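import Pool.Agent.P.MP_e3a3b0_nt.Main

/-!
Sun's representation problem in independent random models of the primes: almost surely the number
of representations is eventually at least `log n / 40`.
-/

set_option autoImplicit false

namespace Pool.Agent.Results.MP_e3a3b0_nt.CramerModel

open MeasureTheory ProbabilityTheory Filter

/-- the triangular number `x (x + 1) / 2` -/
def T (x : ℕ) : ℕ := x * (x + 1) / 2

/-- the number of elements of `A` that are at most `y` -/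
noncomputable def cnt (A : Set ℕ) (y : ℕ) : ℕ := (A ∩ Set.Iic y).ncard

/-- the number of pairs `1 < k < m < n` with `cnt A (T n) = cnt A (T k) + cnt A (T m)` -/
noncomputable def rep (A : Set ℕ) (n : ℕ) : ℕ :=
  {x : ℕ × ℕ | 1 < x.1 ∧ x.1 < x.2 ∧ x.2 < n ∧
    cnt A (T n) = cnt A (T x.1) + cnt A (T x.2)}.ncard

theorem result {Ω : Type*} [MeasurableSpace Ω] (P : Measure Ω) [IsProbabilityMeasure P]
    (E : ℕ → Set Ω) (hE : ∀ l, MeasurableSet (E l)) (hi : iIndepSet E P)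
    (h1 : ∀ᶠ l in atTop, P.real (E l) ≤ 1 / 2)
    (h2 : ∀ᶠ y : ℕ in atTop, |∑ l ∈ Finset.range (y + 1), P.real (E l) -
      ∑ l ∈ Finset.Icc 2 y, 1 / Real.log l| ≤ (y : ℝ) ^ (1 / 3 : ℝ)) :
    ∀ᵐ ω ∂P, ∀ᶠ n : ℕ in atTop, Real.log n / 40 ≤ (rep {l | ω ∈ E l} n : ℝ) :=
  Pool.Agent.P.MP_e3a3b0_nt.main hE hi h1 h2

/-- the hypotheses hold in the model of Cramer -/
theorem cramer {Ω : Type*} [MeasurableSpace Ω] (P : Measure Ω) [IsProbabilityMeasure P]
    (E : ℕ → Set Ω) (hE : ∀ l, MeasurableSet (E l)) (hi : iIndepSet E P)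
    (h : ∀ l, 3 ≤ l → P.real (E l) = 1 / Real.log l) :
    ∀ᵐ ω ∂P, ∀ᶠ n : ℕ in atTop, Real.log n / 40 ≤ (rep {l | ω ∈ E l} n : ℝ) := by
  refine result P E hE hi ((eventually_ge_atTop 9).mono fun l hl => ?_)
    ((eventually_ge_atTop 27).mono fun y hy => ?_)
  · have a : (9 : ℝ) ≤ l := by exact_mod_cast hl
    rw [h l (by omega)]
    refine one_div_le_one_div_of_le two_pos ((Real.le_log_iff_exp_le (by linarith)).2 ?_)
    rw [show (2 : ℝ) = 1 + 1 by norm_num, Real.exp_add]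
    nlinarith [Real.exp_one_lt_d9, Real.exp_pos 1]
  · have a : (3 : ℝ) ≤ (y : ℝ) ^ (1 / 3 : ℝ) := by
      rw [one_div, Real.le_rpow_inv_iff_of_pos (by norm_num) (Nat.cast_nonneg y) (by norm_num)]
      exact le_trans (by norm_num) (show ((27 : ℕ) : ℝ) ≤ y from Nat.cast_le.2 hy)
    rw [Finset.range_eq_Ico, ← Finset.sum_Ico_consecutive _ (show 0 ≤ 3 by omega) (by omega),
      ← Finset.Ico_add_one_right_eq_Icc,
      ← Finset.sum_Ico_consecutive _ (show 2 ≤ 3 by omega) (show 3 ≤ y + 1 by omega),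
      Finset.sum_congr rfl fun l hl => h l (Finset.mem_Ico.1 hl).1, add_sub_add_right_eq_sub]
    have b : ∀ l, 0 ≤ P.real (E l) ∧ P.real (E l) ≤ 1 := fun l =>
      ⟨measureReal_nonneg, measureReal_le_one⟩
    have c : 0 ≤ 1 / Real.log 2 ∧ 1 / Real.log 2 ≤ 2 :=
      ⟨by positivity, by rw [div_le_iff₀ (by positivity)]; linarith [Real.log_two_gt_d9]⟩
    simp only [Finset.sum_Ico_succ_top, Finset.Ico_self, Finset.sum_empty, Nat.le_refl,
      Nat.zero_le, zero_add, Nat.cast_ofNat]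
    rw [abs_le]
    constructor <;> linarith [b 0, b 1, b 2, c.1, c.2]

end Pool.Agent.Results.MP_e3a3b0_nt.CramerModel
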